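import Mathlib
import Pool.Agent.H73.G.R8.H667R3.W7
import Pool.Agent.H73.G.R8.Helper620.Wg.KI

/-!
The degree of the divisor of an elliptic function is zero.
-/

open Filter Topology
open  H667R3
open scoped PeriodPair

noncomputable section

namespace Pool.Agent.TH172.ER

variable (L : PeriodPair)

theorem zreg_zero : zreg L 0 = 0 := by
  have h1 : deriv (fun x => Pi' L (-x)) 0 = - deriv (Pi' L) (-0) := deriv_comp_neg (Pi' L) 0
  have h2 : (fun x => Pi' L (-x)) = Pi' L := funext (Pi'_neg L)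
  rw [h2, neg_zero] at h1
  have h3 : deriv (Pi' L) 0 = 0 := by
    have : (2 : ℂ) * deriv (Pi' L) 0 = 0 := by linear_combination h1
    simpa using this
  rw [zreg, h3, zero_div]

theorem not_prop (κ : ℂ) : ¬ ∀ l ∈ L.lattice, eta L l = κ * l := by
  intro h
  set f : ℂ → ℂ := fun z => zeta L z - κ * z with hf
  have hfper : ∀ z, z ∉ L.lattice → ∀ l ∈ L.lattice, f (z + l) = f z := by
    intro z hz l hl
    simp only [hf]
    rw [zeta_add_coe L hz hl, h l hl]
    ring
  have hfodd : ∀ z, f (-z) = - f z := by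
    intro z
    simp only [hf]
    rw [zeta_neg]
    ring
  have hhalf : ∀ z, z ∉ L.lattice → 2 * z ∈ L.lattice → f z = 0 := by
    intro z hz h2
    have hnz : -z ∉ L.lattice := fun h => hz (by simpa using neg_mem h)
    have h1 := hfper (-z) hnz (2 * z) h2
    rw [hfodd, show -z + 2 * z = z by ring] at h1
    have : (2 : ℂ) * f z = 0 := by linear_combination h1
    simpa using this
  set g : ℂ → ℂ := fun z => f z ^ 2 - ℘[L] z with hg
  have hfd : ∀ z, z ∉ L.lattice → DifferentiableAt ℂ f z := by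
    intro z hz
    exact (hasDerivAt_zeta L hz).differentiableAt.sub (by fun_prop)
  have hgd : ∀ z, z ∉ L.lattice → DifferentiableAt ℂ g z := by
    intro z hz
    exact ((hfd z hz).pow 2).sub (hasDerivAt_weierstrassP L hz).differentiableAt
  have hgper : ∀ z, z ∉ L.lattice → ∀ l ∈ L.lattice, g (z + l) = g z := by
    intro z hz l hl
    simp only [hg]
    rw [hfper z hz l hl, L.weierstrassP_add_coe z ⟨l, hl⟩]
  set r : ℂ → ℂ := fun z => zreg L z - κ * z with hr
  have hP0 : Pi' L 0 ≠ 0 := by rw [Pi'_zero]; exact one_ne_zero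
  have hrana : AnalyticAt ℂ r 0 := by
    have h1 : ∀ᶠ z in 𝓝 (0 : ℂ), DifferentiableAt ℂ r z := by
      have h2 : ∀ᶠ z in 𝓝 (0 : ℂ), Pi' L z ≠ 0 :=
        (differentiable_Pi' L).continuous.continuousAt.eventually_ne hP0
      filter_upwards [h2] with z hz
      exact (differentiableAt_zreg hz).sub (by fun_prop)
    exact Complex.analyticAt_iff_eventually_differentiableAt.2 h1
  have hds : DifferentiableAt ℂ (dslope r 0) 0 := by
    obtain ⟨q, hq⟩ := hrana
    exact (hq.has_fpower_series_dslope_fslope).analyticAt.differentiableAt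
  have hr0 : r 0 = 0 := by simp only [hr]; rw [zreg_zero]; ring
  have hPE : DifferentiableAt ℂ ℘[L - (0 : ℂ)] 0 := (L.analyticAt_weierstrassPExcept 0).differentiableAt
  set G₀ : ℂ → ℂ := fun z => 2 * dslope r 0 z + r z ^ 2 - ℘[L - (0 : ℂ)] z with hG
  have hG0 : DifferentiableAt ℂ G₀ 0 :=
    ((hds.const_mul 2).add (hrana.differentiableAt.pow 2)).sub hPE
  have heq : ∀ᶠ z in 𝓝[≠] (0 : ℂ), g z = G₀ z := by
    have h1 : ∀ᶠ z in 𝓝[≠] (0 : ℂ), z ∉ L.lattice := by
      filter_upwards [self_mem_nhdsWithin, mem_nhdsWithin_of_mem_nhds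
        (L.compl_lattice_sdiff_singleton_mem_nhds 0)] with w hw hw'
      simp_all
    filter_upwards [h1, self_mem_nhdsWithin] with z hz hz0
    have hz0' : z ≠ 0 := hz0
    have e1 : f z = 1 / z + r z := by
      simp only [hf, hr]
      rw [zreg_eq hz]
      ring
    have e2 : ℘[L] z = ℘[L - (0 : ℂ)] z + 1 / z ^ 2 := by
      have := L.weierstrassPExcept_add ⟨0, zero_mem _⟩ z
      simp only [sub_zero] at this
      rw [← this]
      norm_num
    have e3 : (z - 0) • dslope r 0 z = r z - r 0 := sub_smul_dslope r 0 z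
    rw [hr0, sub_zero, sub_zero, smul_eq_mul] at e3
    simp only [hg, hG]
    rw [e1, e2, ← e3]
    field_simp
    ring
  have hc := eq_of_periodic L g hgd hgper G₀ hG0 heq
  have k1 := L.ω₁_div_two_notMem_lattice
  have k2 := L.ω₂_div_two_notMem_lattice
  have h12 := hc _ _ k1 k2
  simp only [hg] at h12
  rw [hhalf _ k1 (by rw [mul_div_cancel₀ _ two_ne_zero]; exact L.ω₁_mem_lattice),
    hhalf _ k2 (by rw [mul_div_cancel₀ _ two_ne_zero]; exact L.ω₂_mem_lattice)] at h12
  have h13 : ℘[L] (L.ω₁ / 2) = ℘[L] (L.ω₂ / 2) := by linear_combination -h12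
  rw [wp_eq_iff L k1 k2] at h13
  have e1 : L.ω₁ / 2 + L.ω₂ / 2 = ((1 / 2 : ℚ) : ℂ) * L.ω₁ + ((1 / 2 : ℚ) : ℂ) * L.ω₂ := by
    push_cast; ring
  have e2 : L.ω₁ / 2 - L.ω₂ / 2 = ((1 / 2 : ℚ) : ℂ) * L.ω₁ + ((-1 / 2 : ℚ) : ℂ) * L.ω₂ := by
    push_cast; ring
  rw [e1, e2, PeriodPair.mul_ω₁_add_mul_ω₂_mem_lattice,
    PeriodPair.mul_ω₁_add_mul_ω₂_mem_lattice] at h13
  norm_num at h13

end Pool.Agent.TH172.ER
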